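import Mathlib
import Pool.Agent.W94.F3.Final

/-!
# The divisibility of the order of the 3-Selmer group over cyclic cubic fields fails

For the elliptic curve `y² = x³ - 23 x² + 1408 x` and the cyclic cubic field `ℚ(u)`,
`u³ - 8463 u - 242606 = 0`, of conductor `7 * 13 * 31`, the 3-Selmer group has at most three
elements.
-/

set_option autoImplicit false

namespace Pool.Agent.Results.MP_f8d35d_nt.SelmerDivisibilityFails

open Pool.Agent.W94.F3 (Selmer)

theorem result :
    ∃ (E : WeierstrassCurve ℚ) (K : IntermediateField ℚ (AlgebraicClosure ℚ)) (_ : NumberField K),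
      E.IsElliptic ∧
      (∃ P : E.toAffine.Point, P ≠ 0 ∧ 3 • P = 0) ∧
      Finite E.toAffine.Point ∧
      IsGalois ℚ K ∧
      Module.finrank ℚ K = 3 ∧
      ¬ 3 ^ ((NumberField.discr K).natAbs.primeFactors.card - 1) ∣ Nat.card (Selmer E 3 K) := by
  have e : WeierstrassCurve.baseChange Pool.Agent.W94.F3.W ℚ = Pool.Agent.W94.F3.W := by
    rw [WeierstrassCurve.baseChange]
    exact WeierstrassCurve.map_id _
  have key1 : ∀ E E' : WeierstrassCurve ℚ, E = E' →
      (∃ P : E.toAffine.Point, P ≠ 0 ∧ 3 • P = 0) → ∃ P : E'.toAffine.Point, P ≠ 0 ∧ 3 • P = 0 := by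
    rintro E E' rfl h
    exact h
  have key2 : ∀ E E' : WeierstrassCurve ℚ, E = E' →
      Finite E.toAffine.Point → Finite E'.toAffine.Point := by
    rintro E E' rfl h
    exact h
  refine ⟨Pool.Agent.W94.F3.W, Pool.Agent.W94.F3.K, Pool.Agent.W94.F3.instNFK, inferInstance,
    key1 _ _ e ⟨Pool.Agent.W94.F3.P3, Pool.Agent.W94.F3.pt_ne_zero _,
      Pool.Agent.W94.F3.three_P⟩, key2 _ _ e Pool.Agent.W94.F3.finite_pt,
    Pool.Agent.W94.F3.K_galois, Pool.Agent.W94.F3.finrank_K, Pool.Agent.W94.F3.not_dvd⟩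

end Pool.Agent.Results.MP_f8d35d_nt.SelmerDivisibilityFails
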